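import Pool.Agent.J4.H82.AD.C

set_option autoImplicit false

namespace Pool.Agent.Results.MP_60d5ce_nt.AllDegrees

open Polynomial Pool.Agent.J4.H42.Wt Pool.Agent.J4.H82.AD

/-- **Cyclic coverings of all degrees: superelliptic Jacobians `J_n` have the same analytic rank as
the Jacobian `J_n'` of a bounded degree `n'`.**

Let `n ≥ 1` be any integer, `c` a prime with `n ∣ c ^ o - 1` (for example `o` the order of `c` modulo
`n`; the main case is `o = 1`, `c = 1` modulo `n`), `r ≥ 1` with `gcd(r, n) ∣ 2`, and `k` a finite
field of characteristic `c` which contains the `n r`-th roots of unity. Let `P_i(x)` be additive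
polynomials (all exponents are powers of `c`; for example `P_i = x`, or `P_i = 0` for a twist) and
`f_i(t)` polynomials of weight at most `D`: all exponents are sums of at most `D` powers of `c` (for
example `deg f_i ≤ D`). Let `B_l`, `g_l`, `l = 1, ..., h`, be polynomials of the same two kinds
(`h = 0` is allowed), `a_i ≥ 0`, `A = a_1 + ... + a_m`, `κ = 1` if `r = 1` and `κ = 2` otherwise, and

  `b = κ D A (c ^ o - 1) / (o (c - 1))`; so `b = κ D A` if `n ∣ c - 1`.

Let `K` be the function field of the curve `u ^ r = t`, `w_l ^ c - w_l = g_l(t)` (assumed to be
geometrically irreducible), for example `K = k(t)`, and let `J_n` be the Jacobian of the curve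
`C_n : y ^ n = ∏ (P(x) + f_i(t)) ^ a_i` over `K`, where all `P_i` are equal to `P`, `P'(0) ≠ 0`, the
`B_l` are zero and not all of the differences `f_i - f_j` are constant. The cohomology of `J_n`,
induced to `k(t)`, is the sum of the parts of the characters `(j, s, lam)`, `0 < j < n`, `0 ≤ s < r`,
`lam ∈ {0, ..., c - 1} ^ h`. The parts for the multiples `j` of `n / n'` belong to `J_n'`, `n' ∣ n`.
Let the order `d = n / gcd(n, j)` of the character `j` be greater than `b`. Then the part has no
constant quotient (the inertia groups at infinity act by characters of order greater than one, since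
`D A < d`, and `2 D A < d` if `r > 1`, or wildly), so its L-function over the affine line is a
polynomial `∏ (1 - x T)` and the power sums of the `x` are the character sums `degSum`
(Grothendieck): `IsDegL` holds. (The case of different `P_i` or `B_l ≠ 0` belongs to fibre products
with Artin-Schreier coverings of the `x`-line; there one has to assume that the parts have no constant
quotient.) The L-function of the part over the projective line divides this polynomial.

Theorem: (1) the L-function of every part with `d > b` does not vanish at `ζ / q`, `q = |k|`, for any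
root of unity `ζ`.
(2) The parts of the characters of `C_n` that do not come from `C_n'` have together the logarithmic
coefficients given by the numbers of points of the surfaces `X_n` and `X_n'`; if all divisors `≤ b` of
`n` divide `n'`, then their product does not vanish at `ζ / q`. So the analytic ranks of `J_n` and of
`J_n'` over `K k'` are equal for all finite extensions `k'` of `k`, the complement of `J_n'` in `J_n`
has finite Mordell-Weil group and satisfies the conjecture of Birch and Swinnerton-Dyer (Milne,
Kato-Trihan), and the conjecture for `J_n` is equivalent to the conjecture for `J_n'`.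

For `n ∣ c - 1` one can take `n' = gcd(n, lcm(1, 2, ..., κ D A))`: the analytic rank is bounded
independently of `n` and of `c`, although the genus and the conductor of `J_n` are unbounded. In the
earlier results `n` is a prime greater than `κ D A`, or has no prime factor `≤ κ D A`, and `n' = 1`.
For `n = c ^ o - 1` the statement (1) applies to all characters of order greater than
`n D A / (o (c - 1))`, for large `o` to nearly all of them; for `n = c ^ o + 1` the ranks are often
unbounded (Ulmer).

Example: `r = 1`, `h = 0`, `P = x`, three functions `f_i = α_i t + β_i` and `a_i = 1`. Then `b = 3` for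
`n ∣ c - 1`, and the characters of order `2` and `3` belong to rational surfaces (the double plane over
four lines and a cubic surface). So the conjecture of Birch and Swinnerton-Dyer holds for the Jacobians
of `y ^ n = (x - f_1) (x - f_2) (x - f_3)` for all divisors `n` of `c - 1`. For four functions (lines in
general position) `b = 4`, order `2` gives a rational surface and the orders `3` and `4` give K3
surfaces, for which the Tate conjecture is known (Charles, Madapusi Pera); so the conjecture holds again
for all divisors `n` of `c - 1`. -/
theorem result (n r c D o κ : ℕ) (hn : 0 < n) (hr : 0 < r) (hrn : Nat.gcd r n ∣ 2)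
    [Fact c.Prime] (hno : n ∣ c ^ o - 1) (hκ : κ = if r = 1 then 1 else 2)
    (k : Type) [Field k] [Fintype k] [CharP k c] (z : k) (hz : IsPrimitiveRoot z (n * r))
    (E : Type) [Field E] [CharZero E] [IsAlgClosed E] (μ ν : E) (hμ : IsPrimitiveRoot μ (n * r))
    (hν : IsPrimitiveRoot ν c) (m h : ℕ) (hD : 1 ≤ D)
    (P : Fin m → k[X]) (hP : ∀ i, IsAdditive c (P i))
    (f : Fin m → k[X]) (hf : ∀ i, HasWeight c D (f i)) (a : Fin m → ℕ)
    (B : Fin h → k[X]) (hB : ∀ l, IsAdditive c (B l))
    (g : Fin h → k[X]) (hg : ∀ l, HasWeight c D (g l)) :
    -- (1) the characters of large order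
    (∀ (j s : ℕ) (lam : Fin h → Fin c) (S : Multiset E), j < n → s < r → 2 ≤ n * r →
      κ * D * (∑ i, a i) * (c ^ o - 1) < n / Nat.gcd n j * o * (c - 1) →
      IsDegL k n r c P f a B g z μ ν j s lam S →
      ∀ (ζ : E) (M : ℕ), 0 < M → ζ ^ M = 1 →
        ((S.map fun x => 1 - C x * X).prod).eval (ζ * (Fintype.card k : E)⁻¹) ≠ 0) ∧
    -- (2) the degrees `n` and `n'`
    (∀ n' : ℕ, n' ∣ n → ∀ A : ℕ → ℕ → (Fin h → Fin c) → Multiset E,
      (∀ j ∈ newExp n n', ∀ s < r, ∀ lam, IsDegL k n r c P f a B g z μ ν j s lam (A j s lam)) →
      (∀ (L : Type) [Field L] [Fintype L] [Algebra k L],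
        ∑ j ∈ newExp n n', ∑ s ∈ Finset.range r, ∑ lam : Fin h → Fin c,
            ((A j s lam).map fun x => x ^ Module.finrank k L).sum
          = (wtPoints L n r c (fun i => (P i).map (algebraMap k L))
                (fun i => (f i).map (algebraMap k L)) a (fun l => (B l).map (algebraMap k L))
                (fun l => (g l).map (algebraMap k L)) : E)
            - (wtPoints L n' r c (fun i => (P i).map (algebraMap k L))
                (fun i => (f i).map (algebraMap k L)) a (fun l => (B l).map (algebraMap k L))
                (fun l => (g l).map (algebraMap k L)) : E)) ∧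
      ((∀ d, d ∣ n → d * o * (c - 1) ≤ κ * D * (∑ i, a i) * (c ^ o - 1) → d ∣ n') →
        ∀ (ζ : E) (M : ℕ), 0 < M → ζ ^ M = 1 →
          (newPoly n n' r c h A).eval (ζ * (Fintype.card k : E)⁻¹) ≠ 0)) :=
  ⟨fun _ _ lam S _ hs hN hcond hS => large hn hr hrn hno hκ k hz hμ hν hD P hP f hf a B hB g hg lam
    S hs hcond hN hS,
   fun _ hn' A hA => ad_main hn hr hrn hno hκ k hz hμ hν hD P hP f hf a B hB g hg hn' A hA⟩

end Pool.Agent.Results.MP_60d5ce_nt.AllDegrees
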