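import Pool.Agent.J4.H42.TwB

set_option autoImplicit false

namespace Pool.Agent.Results.MP_60d5ce_nt.BoundedRanksInKummerTowers

open Polynomial Pool.Agent.J4.H42.Wt Pool.Agent.J4.H42.Tw

/-- **Superelliptic Jacobians have bounded ranks in the tower of all Kummer extensions `k(t ^ (1/r))`,
and only finitely many layers matter for the conjecture of Birch and Swinnerton-Dyer.**

Let `p` be a prime, `k` a finite field of characteristic `c = 1` modulo `p`. Let `P_i(x)` be additive
polynomials over `k` (all exponents are powers of `c`; for example `P_i = x`, or `P_i = 0` for a twist)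
and let `f_i(t)` be polynomials over `k` of weight at most `D`: all exponents are sums of at most `D`
powers of `c` (for example `deg f_i ≤ D`). Let `a_i > 0`, `2 D (a_1 + ... + a_m) < p`, and let `J` be the
Jacobian of the curve `y ^ p = ∏ (P_i(x) + f_i(t)) ^ a_i` over `k(t)`.

Let `r` be any multiple of `p` prime to `c`, `K_r = k(t ^ (1/r))`, and let `g` be the greatest common
divisor of `r` and the number `bound p = (2 p)! (p - 1)!`. For `r` prime to `p` the L-function of `J`
over `K_r` has no zero at `s = 1` (`PolynomialBranchPoints`). For multiples of `p` it may have one, for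
the characters `s` of `μ_r` whose order is divisible by `p` and which can cancel the monodromy of `J`.
We show that the order of the zero is the same for `K_r` and for `K_g`. So it is bounded, by a bound
that depends only on `J`, in the tower of all Kummer extensions. For instance it is the same for all
`k(t ^ (1 / p ^ v))`, `v ≥ 1`.

We may assume that `k` contains the `r`-th roots of unity, since the result holds over all finite
extensions of `k`. The cohomology of `J` over `K_r`, induced to `k(t)`, is the sum of the parts of the
characters `(j, s)`, `0 < j < p`, `0 ≤ s < r`; the `s` divisible by `r / g` give the cohomology of `J`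
over `K_g`. The set `newExp r g` consists of the other `s`. The sum of their parts is the cohomology
of the quotient `B` of the Weil restriction of `J` from `K_r` to `k(t)` by that of `J` from `K_g`. If
all `P_i` are equal to one polynomial `P`, `P'(0) ≠ 0`, these parts have no constant quotient (their
inertia groups at infinity act by characters of order not dividing `bound p`, or wildly); in general
we assume this. So (Grothendieck) the L-function of a part over the affine line is a polynomial
`∏ (1 - x T)` and the power sums of the `x` are the sums `towerSum`: `IsTowerL` holds with the multiset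
`A j s` of the `x`. The L-function of `B`, the quotient `L(J/K_r, T) / L(J/K_g, T)`, is the product of
the L-functions of the parts over the projective line, which divide these polynomials (they may lack
the factors of invariants of inertia at the bad places).

Theorem: (1) the product `newPoly` of the polynomials has the logarithmic coefficients given by the
numbers of points of the surfaces `y ^ p = ∏ (P_i(x) + f_i(u ^ r)) ^ a_i` and
`y ^ p = ∏ (P_i(x) + f_i(u ^ g)) ^ a_i`;
(2) it does not vanish at `ζ / q` for any root of unity `ζ`, `q = |k|`. So for all finite extensions
`k'` of `k` the L-function of `B` over `k'(t)` does not vanish at `s = 1`, `B(k'(t))` and the group Sha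
of `B` are finite (Milne, Kato-Trihan), the L-functions of `J` over `K_r k'` and over `K_g k'` have the
same order of vanishing at `s = 1`, the ranks of `J(K_r k')` and of `J(K_g k')` are equal, and the
conjecture of Birch and Swinnerton-Dyer for `J` over `K_r k'` is equivalent to that over `K_g k'`. -/
theorem result (p r c D : ℕ) (hp : p.Prime) (hr : 0 < r) (hpr : p ∣ r)
    [Fact c.Prime] (hpc : p ∣ c - 1)
    (k : Type) [Field k] [Fintype k] [CharP k c] (z : k) (hz : IsPrimitiveRoot z r)
    (E : Type) [Field E] [CharZero E] [IsAlgClosed E] (μ : E) (hμ : IsPrimitiveRoot μ r)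
    (m : ℕ) (hD : 1 ≤ D) (P : Fin m → k[X]) (hP : ∀ i, IsAdditive c (P i))
    (f : Fin m → k[X]) (hf : ∀ i, HasWeight c D (f i))
    (a : Fin m → ℕ) (ha : ∀ i, 0 < a i) (ha2 : 2 * D * ∑ i, a i < p)
    (A : ℕ → ℕ → Multiset E)
    (hA : ∀ j s, 0 < j → j < p → s ∈ newExp r (Nat.gcd r (bound p)) →
      IsTowerL k p r P f a z μ j s (A j s)) :
    (∀ (L : Type) [Field L] [Fintype L] [Algebra k L],
      ∑ j ∈ Finset.Ico 1 p, ∑ s ∈ newExp r (Nat.gcd r (bound p)),
          ((A j s).map fun x => x ^ Module.finrank k L).sum
        = (towerPoints L p r (fun i => (P i).map (algebraMap k L))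
              (fun i => (f i).map (algebraMap k L)) a : E)
          - (towerPoints L p (Nat.gcd r (bound p)) (fun i => (P i).map (algebraMap k L))
              (fun i => (f i).map (algebraMap k L)) a : E)) ∧
    ∀ (ζ : E) (M : ℕ), 0 < M → ζ ^ M = 1 →
      (newPoly p r (Nat.gcd r (bound p)) A).eval (ζ * (Fintype.card k : E)⁻¹) ≠ 0 :=
  tower_main hp hr hpr hpc k hz hμ hD P hP f hf a ha ha2 A hA

end Pool.Agent.Results.MP_60d5ce_nt.BoundedRanksInKummerTowers
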