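import Pool.Agent.J4.H42.FibC

set_option autoImplicit false

namespace Pool.Agent.Results.MP_60d5ce_nt.FibreProductsOfCoverings

open Polynomial Pool.Agent.J4.H42.Fib

/-- **The Birch-Swinnerton-Dyer conjecture for the Jacobians of fibre products of cyclic coverings of
the line of pairwise coprime degrees, with polynomial branch points and twists, over Kummer extensions
of `k(t)`.**

Let `n_1, ..., n_s ≥ 2` be pairwise coprime integers (not necessarily primes), `N = n_1 ... n_s`, `k` a
finite field of characteristic `c = 1` modulo `N`, and let `r ≥ 1` be prime to `N` and to `c`, with the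
`N r`-th roots of unity in `k`. Let `l_i x + f_i(t)`, `i = 1, ..., m`, be any polynomials of degree at
most `1` in `x`, with `l_i` in `k` (it may be zero) and `deg f_i ≤ D`, and `a_(k, i) ≥ 0` integers with
`D ∑_k (∑_i a_(k, i)) / P_k < 1`, and even `< 1 / 2` if `r > 1`, where `P_k` is the least prime factor
of `n_k`. Put `F_k(x, t) = ∏_i (l_i x + f_i(t)) ^ a_(k, i)`.

Let `B` be a subset of `{1, ..., s}` such that the `F_k`, `k ∈ B`, do not contain `x`, and let `K` be
the function field of the curve `u ^ r = t`, `y_k ^ n_k = F_k(t)`, `k ∈ B` (a Kummer extension of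
`k(t)`; for example `B` empty, `K = k(t ^ (1/r))`). Let `C` be the curve `y_k ^ n_k = F_k(x, t)`,
`k ∉ B`, over `K`: the fibre product over the `x`-line of the superelliptic curves
`y_k ^ n_k = F_k(x, t)`, where `F_k` is the product of a twisting factor `∏_{l_i = 0} f_i(t) ^ a_(k, i)`
and of powers of `x + f_i(t) / l_i`. All positions of the branch points `- f_i(t) / l_i` are allowed.
For `s = 1` and without twists these are the superelliptic curves of the file
`PolynomialBranchPoints`. For `s ≥ 2` the Jacobian `J` of `C` is not isogenous to a product of
Jacobians of the superelliptic curves: most of it is the new part that belongs to the characters of the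
group `∏ μ_(n_k)` with several components different from `1`.

The cohomology of `J` over `K`, induced to `k(t)`, is the sum of the parts of the characters `(j, e)`,
`j` in `chars n B` (the characters that are not trivial outside of `B`), `0 ≤ e < r`. Assume (the non
constant case) that no part has a constant quotient. Then the L-function of a part is a polynomial
`∏ (1 - x T)` and the power sums of the `x` are the sums `charSum` (Grothendieck): `IsCharL` holds with
the multiset `A j e` of the `x`. (The inequality implies that the local monodromy of the part at a place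
where branch points meet, or where the twisting factor has a zero, or at infinity, has no invariants in
the vanishing part: it acts there by characters `χ ^ v` with `0 < v < N r` after multiplication by a
unit. So the local factors are the right ones.)

Theorem: (1) the product `lProd` of these polynomials has the logarithmic coefficients given by the
numbers of points of the surface `y_k ^ n_k = F_k(x, u ^ r)`, all `k`, and of its quotient given by the
equations with `k ∈ B`, which is the product of the line and the base curve (so it is
`L(J, T)`, `T = q^(-s)`, `q = |k|`);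
(2) it does not vanish at `ζ / q` for any root of unity `ζ`: `L(J, 1) ≠ 0`, also over all finite
extensions of `k`; so `J(K k')` is finite, and (Milne, Kato-Trihan) the group Sha is finite and the
formula holds, for all finite extensions `k'` of `k`. -/
theorem result (s : ℕ) (n : Fin s → ℕ) (hn : ∀ k, 2 ≤ n k)
    (hcop : Pairwise fun i k => (n i).Coprime (n k)) (r : ℕ) (hr : 0 < r)
    (hrn : ∀ k, r.Coprime (n k)) (c : ℕ) [Fact c.Prime] (hc : ∏ k, n k ∣ c - 1)
    (k : Type) [Field k] [Fintype k] [CharP k c] (z : k)
    (hz : IsPrimitiveRoot z ((∏ k, n k) * r))
    (E : Type) [Field E] [CharZero E] [IsAlgClosed E] (μ : E)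
    (hμ : IsPrimitiveRoot μ ((∏ k, n k) * r))
    (m : ℕ) (l : Fin m → k) (f : Fin m → k[X]) (D : ℕ) (hD : 1 ≤ D)
    (hf : ∀ i, (f i).natDegree ≤ D) (a : Fin s → Fin m → ℕ)
    (ha : ((if r = 1 then D else 2 * D : ℕ) : ℚ)
      * ∑ k, (∑ i, (a k i : ℚ)) / ((n k).minFac : ℚ) < 1)
    (B : Finset (Fin s)) (A : (Fin s → ℕ) → ℕ → Multiset E)
    (hA : ∀ j ∈ chars n B, ∀ e < r, IsCharL k n r l f a z μ j e (A j e)) :
    (∀ (L : Type) [Field L] [Fintype L] [Algebra k L],
      ∑ j ∈ chars n B, ∑ e ∈ Finset.range r, ((A j e).map fun x => x ^ Module.finrank k L).sum
        = (points L n r (fun i => algebraMap k L (l i)) (fun i => (f i).map (algebraMap k L)) a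
            Finset.univ : E)
          - (points L n r (fun i => algebraMap k L (l i)) (fun i => (f i).map (algebraMap k L)) a
            B : E)) ∧
    ∀ (ζ : E) (M : ℕ), 0 < M → ζ ^ M = 1 →
      (lProd n r B A).eval (ζ * (Fintype.card k : E)⁻¹) ≠ 0 :=
  fib_main hn hcop hr hrn hc k hz hμ l f hD hf a ha B A hA

end Pool.Agent.Results.MP_60d5ce_nt.FibreProductsOfCoverings
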