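import Pool.Agent.J4.H70.FF.Fin

/-!
# Infinite Kummer towers over which the central values of Jacobians do not vanish

Let `K` be the function field of a curve over the field `k` with `q` elements and let `l ^ m` be a
power of a prime `l` which divides `q - 1`. For finitely many abelian varieties over `K` with
nonvanishing central values, every infinite group of characters of exponent `l ^ m` of `K` which are
ramified only at places where `l` does not divide the numbers of points of the reductions has an
infinite subgroup such that the central values over all finite extensions of `K` in the field of the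
subgroup do not vanish.
-/

set_option autoImplicit false
set_option linter.all false
set_option maxHeartbeats 4000000

open Polynomial Pool.Agent.W343.BSD
open Pool.Agent.TH639.CK (symbol)

namespace Pool.Agent.Results.MP_60d5ce_nt.InfiniteKummerTowers

section defs

variable {k K : Type} [Field k] [Field K] [Algebra k K]

/-- The Euler factor at `v` of the twist by the character of `χ` and `f`: it is `P_v(c T ^ deg v)`,
where `c` is the value of the character at `v`, which is zero if the character is ramified at `v`. -/
noncomputable def twistFactor (χ : MulChar k ℂ) (P : FF.Place k K → ℤ[X]) (f : K)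
    (v : FF.Place k K) : ℂ[X] :=
  ((P v).map (Int.castRingHom ℂ)).comp (C (symbol χ f v) * X ^ S.deg v)

/-- The `L`-function of the twist by the character of `χ` and `f`, the product of the inverses of the
Euler factors. -/
noncomputable def twistL (χ : MulChar k ℂ) (P : FF.Place k K → ℤ[X]) (f : K) : PowerSeries ℂ :=
  eulerProd (fun v : FF.Place k K => S.deg v)
    (fun v => PowerSeries.invOfUnit (twistFactor χ P f v : PowerSeries ℂ) 1)

/-- `Q ^ N L` is a polynomial which is not zero at `1 / |k|`. -/
def NonzeroAt (k : Type) (Q : ℤ[X]) (N : ℕ) (L : PowerSeries ℂ) : Prop :=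
  ∃ M : ℂ[X], ((Q.map (Int.castRingHom ℂ) ^ N : ℂ[X]) : PowerSeries ℂ) * L = M ∧
    M.eval ((Nat.card k : ℂ)⁻¹) ≠ 0

/-- The group of the classes of the elements of `K` different from zero modulo `n`-th powers. -/
abbrev Class (n : ℕ) (K : Type) [Field K] : Type := Kˣ ⧸ (powMonoidHom n : Kˣ →* Kˣ).range

/-- The classes of the elements of `G`. -/
def classes (n : ℕ) (G : Subgroup Kˣ) : Set (Class n K) :=
  {c | ∃ f ∈ G, (QuotientGroup.mk f : Class n K) = c}

/-- The elements whose class is a product of powers of the classes `c j`. -/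
def spanned (n : ℕ) {s : ℕ} (c : Fin s → Class n K) : Subgroup Kˣ :=
  (Subgroup.closure (Set.range c)).comap (QuotientGroup.mk' (powMonoidHom n : Kˣ →* Kˣ).range)

/-- `L` is the Galois extension of `K` generated by the `n`-th roots of the elements of `G` (its degree
is the number of classes of `G`, by Kummer theory). -/
structure IsKummer (n : ℕ) (G : Subgroup Kˣ) (L : Type) [Field L] [Algebra K L] : Prop where
  finite : FiniteDimensional K L
  galois : IsGalois K L
  degree : Module.finrank K L = (classes n G).ncard
  root : ∀ f ∈ G, ∃ y : L, y ^ n = algebraMap K L (f : K)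
  gen : IntermediateField.adjoin K {y : L | ∃ f ∈ G, y ^ n = algebraMap K L (f : K)} = ⊤

/-- The place `w` of `L` lies over the place `v` of `K`. -/
def LiesOver {L : Type} [Field L] [Algebra k L] [Algebra K L] (w : FF.Place k L)
    (v : FF.Place k K) : Prop :=
  ∃ e : ℕ, 0 < e ∧ ∀ x : K, w.ord (algebraMap K L x) = e * v.ord x

open Classical in
/-- The Euler factor at the place `w` of `L` over `v`: the product of `1 - α ^ d T ^ deg w` over the
inverses `α` of the zeros of `P_v`, where `d = deg w / deg v` is the residue degree. -/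
noncomputable def factorOver {L : Type} [Field L] [Algebra k L] [Algebra K L]
    (P : FF.Place k K → ℤ[X]) (w : FF.Place k L) : ℂ[X] :=
  if h : ∃ v : FF.Place k K, LiesOver w v then
    (((P h.choose).map (Int.castRingHom ℂ)).roots.map fun r =>
      (1 - C (r⁻¹ ^ (S.deg w / S.deg h.choose)) * X ^ S.deg w : ℂ[X])).prod
  else 1

/-- The `L`-function over `L`, the product of the inverses of the Euler factors. -/
noncomputable def overL (P : FF.Place k K → ℤ[X]) (L : Type) [Field L] [Algebra k L]
    [Algebra K L] : PowerSeries ℂ :=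
  eulerProd (fun w : FF.Place k L => S.deg w)
    (fun w => PowerSeries.invOfUnit (factorOver P w : PowerSeries ℂ) 1)

/-- The `L`-functions of the twists by the characters of the elements of `G` and, if `G` has finitely
many classes, the `L`-function over the extension of `K` generated by the `n`-th roots of the elements
of `G`, do not vanish at `1 / |k|`. -/
def Nonvanishing (χ : MulChar k ℂ) (P : FF.Place k K → ℤ[X]) (Q : ℤ[X]) (G : Subgroup Kˣ) : Prop :=
  (∀ f ∈ G, NonzeroAt k Q 1 (twistL χ P (f : K))) ∧
  ∀ (L : Type) [Field L] [Algebra k L] [Algebra K L] [IsScalarTower k K L],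
    IsKummer (orderOf χ) G L → NonzeroAt k Q (Module.finrank K L) (overL P L)

/-- The Euler factor of the elliptic curve `y ^ 2 = x ^ 3 + a x + b` at `v` as a polynomial:
`1 - a_v T + q_v T ^ 2` for good reduction and `1 - a_v T` for bad reduction. -/
noncomputable def ellipticFactor (a b : K) (v : FF.Place k K) : ℤ[X] :=
  open Classical in
  1 - C (S.trace v a b) * X + if v.ord (minDisc v a b) = 0 then C (Nat.card (S.Res v) : ℤ) * X ^ 2
    else 0

end defs

section bridge

open Pool.Agent.J4.H70.FF

variable {k K : Type} [Field k] [Finite k] [Field K] [Algebra k K] [FF.IsFF k K]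

theorem nonzeroAt_iff (χ : MulChar k ℂ) (P : FF.Place k K → ℤ[X]) (Q : ℤ[X]) (f : K) :
    NonzeroAt k Q 1 (twistL χ P f) ↔ NV χ P Q f := by
  unfold NonzeroAt NV IsPol
  rw [pow_one]
  exact Iff.rfl

theorem classes_eq (n : ℕ) (G : Subgroup Kˣ) : classes n G = (Bg n G : Set (Cl n K)) := by
  ext c
  exact (mem_Bg (n := n) (G := G) (b := c)).symm

theorem isKum_of {n : ℕ} {G : Subgroup Kˣ} {L : Type} [Field L] [Algebra K L]
    (h : IsKummer n G L) : IsKum n G L :=
  ⟨h.finite, h.galois, h.degree.trans ((congrArg Set.ncard (classes_eq n G)).trans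
    (Nat.card_coe_set_eq (Bg n G : Set (Cl n K))).symm), h.root, h.gen⟩

theorem overL_eq (P : FF.Place k K → ℤ[X]) (L : Type) [Field L] [Algebra k L] [Algebra K L] :
    overL P L = LF K L P := rfl

theorem symbol_one (χ : MulChar k ℂ) (v : FF.Place k K) : symbol χ (1 : K) v = 1 := by
  have h1 := symbol_unram χ v 1 (by rw [Units.val_one, v.ord_one]; exact dvd_zero _)
  rw [Units.val_one, map_one] at h1
  exact h1

theorem elliptic_zero (a b : K) (v : FF.Place k K) : (ellipticFactor a b v).coeff 0 = 1 := by
  unfold ellipticFactor
  split_ifs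
  · simp
  · simp

theorem locFactor_lf (a b : K) (v : FF.Place k K) :
    S.locFactor v a b = lf (ellipticFactor a b v) (1 : ℤ) (S.deg v) := by
  unfold lf ellipticFactor S.locFactor
  have e : (Int.castRingHom ℤ) = RingHom.id ℤ := RingHom.ext_int _ _
  rw [e, Polynomial.map_id, C_1, one_mul]
  split_ifs with h
  · rw [Polynomial.add_comp, Polynomial.sub_comp, Polynomial.one_comp, Polynomial.mul_comp,
      Polynomial.C_comp, Polynomial.X_comp, Polynomial.mul_comp, Polynomial.C_comp,
      Polynomial.pow_comp, Polynomial.X_comp, ← pow_mul, mul_comm 2]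
  · rw [Polynomial.add_comp, Polynomial.sub_comp, Polynomial.one_comp, Polynomial.mul_comp,
      Polynomial.C_comp, Polynomial.X_comp, Polynomial.zero_comp]

theorem elliptic_one (χ : MulChar k ℂ) (a b : K) : twistL χ (ellipticFactor a b) (1 : K) =
    PowerSeries.map (Int.castRingHom ℂ) (S.Lfun k a b) := by
  unfold twistL S.Lfun
  rw [map_eulerProd deg_fin]
  congr 1
  funext v
  have h1 := lf_invmap (Int.castRingHom ℂ) (elliptic_zero a b v) (1 : ℤ) (deg_pos'' v)
  rw [← locFactor_lf, map_one] at h1
  rw [h1]
  unfold twistFactor lf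
  rw [symbol_one]

theorem nonvanishing_of {χ : MulChar k ℂ} {P : FF.Place k K → ℤ[X]}
    (hP : ∀ v, (P v).coeff 0 = 1) {Q : ℤ[X]} {G : Subgroup Kˣ}
    (h : ∀ f ∈ G, NV χ P Q (f : K)) : Nonvanishing χ P Q G := by
  refine ⟨fun f hf => (nonzeroAt_iff χ P Q f).2 (h f hf), ?_⟩
  intro L _ _ _ _ hL
  have h1 := over_L (isKum_of hL) hP h
  unfold NonzeroAt
  rw [overL_eq]
  exact h1

end bridge

/-- Let `K` be the function field of a curve over the field `k` with `q` elements, `χ` a character of
`k` of order `n = l ^ m`, `l` a prime, `m > 0`. So `n` divides `q - 1`, and the characters of `K` of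
exponent `n` are the characters `χ_f` of `χ` and `f`, `f` in `K` different from zero modulo `n`-th powers.
Let `J_1, ..., J_r` be given by their Euler factors `P_{i, v}(T ^ deg v)`, where `P_{i, v}` are
polynomials over the integers with constant term one: for an abelian variety `J` over `K` the
characteristic polynomials of the Frobenius elements on the inertia invariants; if `J` has good
reduction at `v` then `P_v(1)` is the number of points of the reduction over the residue field. Let `H`
be a group of elements of `K` such that `l` does not divide `P_{i, v}(1)` for all `i` and all `v` at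
which the character of some `f` in `H` is ramified. (If `J_i` is semistable at these `v` then `twistL` and
`overL` are the `L`-functions of `J_i ⊗ χ_f` and of `J_i` over the Kummer extensions `L` of `K`.) We assume
that there are polynomials `Q_i` over the integers such that `Q_i(T) L(T, J_i ⊗ χ_f)` is a
polynomial for all `f` in `H` (Grothendieck's theorem, with `Q_i = 1` if `J_i` has no isotrivial part),
and that it does not vanish at `1 / q` for `f = 1`.

(1) For all `s` there is `V` such that in every subgroup `G` of `H` with finitely many classes modulo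
`n`-th powers, for at least `1 / 2 ^ V` of the `s`-tuples of classes, the `L`-functions of the twists of
`J_1, ..., J_r` by all characters of the group generated by the `s`-tuple, and the `L`-functions of
`J_1, ..., J_r` over the extension of `K` generated by the `n`-th roots of its elements, do not vanish at
`1 / q`.

(2) If `H` has infinitely many classes modulo `n`-th powers and `F` is a subgroup of `H` for which the
twists by the elements of `F` do not vanish at `1 / q` (for example `F = 1`), then there is a subgroup
`H0` of `H` with infinitely many classes which contains `F`, such that the twists by the characters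
of all elements of `H0`, and the `L`-functions of `J_1, ..., J_r` over the extensions of `K` generated by
the `n`-th roots of the elements of `G`, for all subgroups `G` of `H0` with finitely many classes
(these are all finite extensions of `K` inside the infinite extension belonging to `H0`), do not vanish
at `1 / q`.

(3) For the Euler factors of an elliptic curve the `L`-function for `f = 1` is the `L`-function of the
curve. -/
theorem result (k K : Type) [Field k] [Finite k] [Field K] [Algebra k K] (hK : IsCurveField k K)
    (l m : ℕ) (hl : l.Prime) (hm : 0 < m) (χ : MulChar k ℂ) (hχ : orderOf χ = l ^ m)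
    (r : ℕ) (P : Fin r → FF.Place k K → ℤ[X]) (hP : ∀ i v, (P i v).coeff 0 = 1)
    (Q : Fin r → ℤ[X]) (H : Subgroup Kˣ)
    (hH : ∀ f ∈ H, ∀ v : FF.Place k K, ¬ ((l ^ m : ℕ) : ℤ) ∣ v.ord (f : K) →
      ∀ i, ¬ (l : ℤ) ∣ (P i v).eval 1)
    (hpol : ∀ i, ∀ f ∈ H, ∃ M : ℂ[X],
      (((Q i).map (Int.castRingHom ℂ) : ℂ[X]) : PowerSeries ℂ) * twistL χ (P i) (f : K) = M)
    (h1 : ∀ i, NonzeroAt k (Q i) 1 (twistL χ (P i) (1 : K))) :
    (∀ s : ℕ, ∃ V : ℕ, ∀ G : Subgroup Kˣ, G ≤ H → (classes (orderOf χ) G).Finite →
      (classes (orderOf χ) G).ncard ^ s ≤ 2 ^ V *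
        {c : Fin s → Class (orderOf χ) K | (∀ j, c j ∈ classes (orderOf χ) G) ∧
          ∀ i, Nonvanishing χ (P i) (Q i) (spanned (orderOf χ) c)}.ncard) ∧
    ((classes (orderOf χ) H).Infinite → ∀ F : Subgroup Kˣ, F ≤ H →
      (∀ f ∈ F, ∀ i, NonzeroAt k (Q i) 1 (twistL χ (P i) (f : K))) →
      ∃ H0 : Subgroup Kˣ, F ≤ H0 ∧ H0 ≤ H ∧ (classes (orderOf χ) H0).Infinite ∧
        ∀ G : Subgroup Kˣ, G ≤ H0 → ∀ i, Nonvanishing χ (P i) (Q i) G) ∧
    ∀ a b : K, 4 * a ^ 3 + 27 * b ^ 2 ≠ 0 →
      twistL χ (ellipticFactor a b) (1 : K) =
        PowerSeries.map (Int.castRingHom ℂ) (S.Lfun k a b) := by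
  classical
  have hFF : FF.IsFF k K := ⟨hK.essFiniteType, hK.trdeg_eq_one⟩
  have hyp : Pool.Agent.J4.H70.FF.HypOn χ P Q l H := by
    refine ⟨hP, ?_, fun i f hf => hpol i f hf⟩
    intro f hf v hv i
    rw [hχ] at hv
    exact hH f hf v hv i
  refine ⟨fun s => ?_, fun hinf F hF hFn => ?_, ?_⟩
  · obtain ⟨V, hV⟩ := Pool.Agent.J4.H70.FF.prop_fin hl hm hχ hyp
      (fun i => (nonzeroAt_iff χ (P i) (Q i) 1).1 (h1 i)) s
    refine ⟨V, fun G hG hfin => ?_⟩
    rw [classes_eq] at hfin ⊢
    refine (hV G hG hfin).trans (Nat.mul_le_mul_left _ ?_)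
    refine Set.ncard_le_ncard ?_ ?_
    · rintro c ⟨hc1, hc2⟩
      exact ⟨hc1, fun i => nonvanishing_of (hP i) fun f hf => hc2 f hf i⟩
    · have hT : {c : Fin s → Class (orderOf χ) K | ∀ j, c j ∈
          (Pool.Agent.J4.H70.FF.Bg (orderOf χ) G :
            Set (Pool.Agent.J4.H70.FF.Cl (orderOf χ) K))}.Finite :=
        Set.Finite.pi' (t := fun _ : Fin s => (Pool.Agent.J4.H70.FF.Bg (orderOf χ) G :
          Set (Pool.Agent.J4.H70.FF.Cl (orderOf χ) K))) fun _ => hfin
      exact hT.subset fun c hc => hc.1
  · rw [classes_eq] at hinf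
    obtain ⟨H0, h2, h3, h4, h5⟩ := Pool.Agent.J4.H70.FF.infinite_fin hl hχ hyp hinf F hF
      (fun f hf i => (nonzeroAt_iff χ (P i) (Q i) f).1 (hFn f hf i))
    refine ⟨H0, h2, h3, ?_, fun G hG i => nonvanishing_of (hP i) fun f hf => h5 f (hG hf) i⟩
    rw [classes_eq]
    exact h4
  · intro a b hab
    exact elliptic_one χ a b

end Pool.Agent.Results.MP_60d5ce_nt.InfiniteKummerTowers
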